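import Pool.Agent.N353.Joints.Grow

/-!
# Cleaning: a subsystem in which every joint is in many four-cycles leaving flats
-/

namespace Pool.Agent.N353.Joints

open Set

variable {α : Type*}

/-- removing one element changes a nonnegative fourfold sum by at most four threefold sums. -/
lemma four_sum_erase {f : α → α → α → α → ℝ} (hf : ∀ x y z t, 0 ≤ f x y z t) [DecidableEq α]
    (G : Finset α) {x0 : α} (hx0 : x0 ∈ G) :
    ∑ x ∈ G, ∑ y ∈ G, ∑ z ∈ G, ∑ t ∈ G, f x y z t ≤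
      (∑ x ∈ G.erase x0, ∑ y ∈ G.erase x0, ∑ z ∈ G.erase x0, ∑ t ∈ G.erase x0, f x y z t)
      + ((∑ y ∈ G, ∑ z ∈ G, ∑ t ∈ G, f x0 y z t) + (∑ x ∈ G, ∑ z ∈ G, ∑ t ∈ G, f x x0 z t)
      + (∑ x ∈ G, ∑ y ∈ G, ∑ t ∈ G, f x y x0 t) + (∑ x ∈ G, ∑ y ∈ G, ∑ z ∈ G, f x y z x0)) := by
  have hsub : G.erase x0 ⊆ G := Finset.erase_subset _ _
  have key : ∀ g : α → ℝ, ∑ x ∈ G, g x = g x0 + ∑ x ∈ G.erase x0, g x := fun g =>
    (Finset.add_sum_erase G g hx0).symm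
  -- first variable
  have e1 : ∑ x ∈ G, ∑ y ∈ G, ∑ z ∈ G, ∑ t ∈ G, f x y z t =
      (∑ y ∈ G, ∑ z ∈ G, ∑ t ∈ G, f x0 y z t) +
        ∑ x ∈ G.erase x0, ∑ y ∈ G, ∑ z ∈ G, ∑ t ∈ G, f x y z t := key _
  have e2 : ∑ x ∈ G.erase x0, ∑ y ∈ G, ∑ z ∈ G, ∑ t ∈ G, f x y z t ≤
      (∑ x ∈ G, ∑ z ∈ G, ∑ t ∈ G, f x x0 z t) +
        ∑ x ∈ G.erase x0, ∑ y ∈ G.erase x0, ∑ z ∈ G, ∑ t ∈ G, f x y z t := by
    have : ∑ x ∈ G.erase x0, ∑ y ∈ G, ∑ z ∈ G, ∑ t ∈ G, f x y z t =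
        (∑ x ∈ G.erase x0, ∑ z ∈ G, ∑ t ∈ G, f x x0 z t) +
        ∑ x ∈ G.erase x0, ∑ y ∈ G.erase x0, ∑ z ∈ G, ∑ t ∈ G, f x y z t := by
      rw [← Finset.sum_add_distrib]
      exact Finset.sum_congr rfl fun x _ => key _
    rw [this]
    gcongr
    exact fun _ _ _ => Finset.sum_nonneg fun _ _ => Finset.sum_nonneg fun _ _ => hf _ _ _ _
  have e3 : ∑ x ∈ G.erase x0, ∑ y ∈ G.erase x0, ∑ z ∈ G, ∑ t ∈ G, f x y z t ≤
      (∑ x ∈ G, ∑ y ∈ G, ∑ t ∈ G, f x y x0 t) +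
        ∑ x ∈ G.erase x0, ∑ y ∈ G.erase x0, ∑ z ∈ G.erase x0, ∑ t ∈ G, f x y z t := by
    have : ∑ x ∈ G.erase x0, ∑ y ∈ G.erase x0, ∑ z ∈ G, ∑ t ∈ G, f x y z t =
        (∑ x ∈ G.erase x0, ∑ y ∈ G.erase x0, ∑ t ∈ G, f x y x0 t) +
        ∑ x ∈ G.erase x0, ∑ y ∈ G.erase x0, ∑ z ∈ G.erase x0, ∑ t ∈ G, f x y z t := by
      rw [← Finset.sum_add_distrib]
      refine Finset.sum_congr rfl fun x _ => ?_
      rw [← Finset.sum_add_distrib]
      exact Finset.sum_congr rfl fun y _ => key _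
    rw [this]
    gcongr
    calc ∑ x ∈ G.erase x0, ∑ y ∈ G.erase x0, ∑ t ∈ G, f x y x0 t ≤
        ∑ x ∈ G.erase x0, ∑ y ∈ G, ∑ t ∈ G, f x y x0 t := by
          refine Finset.sum_le_sum fun x _ => ?_
          exact Finset.sum_le_sum_of_subset_of_nonneg hsub
            fun _ _ _ => Finset.sum_nonneg fun _ _ => hf _ _ _ _
      _ ≤ _ := Finset.sum_le_sum_of_subset_of_nonneg hsub
            fun _ _ _ => Finset.sum_nonneg fun _ _ => Finset.sum_nonneg fun _ _ => hf _ _ _ _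
  have e4 : ∑ x ∈ G.erase x0, ∑ y ∈ G.erase x0, ∑ z ∈ G.erase x0, ∑ t ∈ G, f x y z t ≤
      (∑ x ∈ G, ∑ y ∈ G, ∑ z ∈ G, f x y z x0) +
        ∑ x ∈ G.erase x0, ∑ y ∈ G.erase x0, ∑ z ∈ G.erase x0, ∑ t ∈ G.erase x0, f x y z t := by
    have : ∑ x ∈ G.erase x0, ∑ y ∈ G.erase x0, ∑ z ∈ G.erase x0, ∑ t ∈ G, f x y z t =
        (∑ x ∈ G.erase x0, ∑ y ∈ G.erase x0, ∑ z ∈ G.erase x0, f x y z x0) +
        ∑ x ∈ G.erase x0, ∑ y ∈ G.erase x0, ∑ z ∈ G.erase x0, ∑ t ∈ G.erase x0, f x y z t := by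
      rw [← Finset.sum_add_distrib]
      refine Finset.sum_congr rfl fun x _ => ?_
      rw [← Finset.sum_add_distrib]
      refine Finset.sum_congr rfl fun y _ => ?_
      rw [← Finset.sum_add_distrib]
      exact Finset.sum_congr rfl fun y _ => key _
    rw [this]
    gcongr
    calc ∑ x ∈ G.erase x0, ∑ y ∈ G.erase x0, ∑ z ∈ G.erase x0, f x y z x0 ≤
        ∑ x ∈ G.erase x0, ∑ y ∈ G.erase x0, ∑ z ∈ G, f x y z x0 := by
          refine Finset.sum_le_sum fun x _ => Finset.sum_le_sum fun y _ => ?_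
          exact Finset.sum_le_sum_of_subset_of_nonneg hsub fun _ _ _ => hf _ _ _ _
      _ ≤ ∑ x ∈ G.erase x0, ∑ y ∈ G, ∑ z ∈ G, f x y z x0 := by
          refine Finset.sum_le_sum fun x _ => ?_
          exact Finset.sum_le_sum_of_subset_of_nonneg hsub
            fun _ _ _ => Finset.sum_nonneg fun _ _ => hf _ _ _ _
      _ ≤ _ := Finset.sum_le_sum_of_subset_of_nonneg hsub
            fun _ _ _ => Finset.sum_nonneg fun _ _ => Finset.sum_nonneg fun _ _ => hf _ _ _ _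
  linarith

open Classical in
/-- codegree of two lines of the first class. -/
noncomputable def cd (a b : α → Set α) (G : Finset α) (v v' : Set α) : ℕ :=
  ((G ×ˢ G).filter (fun p => a p.1 = v ∧ a p.2 = v' ∧ b p.1 = b p.2)).card

lemma cd_symm (a b : α → Set α) (G : Finset α) (v v' : Set α) :
    cd a b G v v' = cd a b G v' v := by
  classical
  refine Finset.card_nbij' (fun p => (p.2, p.1)) (fun p => (p.2, p.1)) ?_ ?_ ?_ ?_
  · rintro ⟨x, y⟩ h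
    simp only [Finset.coe_filter, Finset.mem_product, Set.mem_ofPred_eq] at h ⊢
    exact ⟨⟨h.1.2, h.1.1⟩, h.2.2.1, h.2.1, h.2.2.2.symm⟩
  · rintro ⟨x, y⟩ h
    simp only [Finset.coe_filter, Finset.mem_product, Set.mem_ofPred_eq] at h ⊢
    exact ⟨⟨h.1.2, h.1.1⟩, h.2.2.1, h.2.1, h.2.2.2.symm⟩
  · rintro ⟨x, y⟩ _
    rfl
  · rintro ⟨x, y⟩ _
    rfl

/-- the weight of a four-cycle. -/
noncomputable def wt (a b : α → Set α) (G : Finset α) (m : ℝ) (v v' : Set α) : ℝ :=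
  min 1 (m / (cd a b G v v' : ℝ))

lemma wt_symm (a b : α → Set α) (G : Finset α) (m : ℝ) (v v' : Set α) :
    wt a b G m v v' = wt a b G m v' v := by
  unfold wt
  rw [cd_symm]

lemma wt_nonneg (a b : α → Set α) (G : Finset α) {m : ℝ} (hm : 0 ≤ m) (v v' : Set α) :
    0 ≤ wt a b G m v v' := by
  unfold wt
  positivity

lemma wt_le_one (a b : α → Set α) (G : Finset α) (m : ℝ) (v v' : Set α) :
    wt a b G m v v' ≤ 1 := min_le_left _ _

lemma cd_mul_wt_le (a b : α → Set α) (G : Finset α) {m : ℝ} (hm : 0 ≤ m) (v v' : Set α) :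
    (cd a b G v v' : ℝ) * wt a b G m v v' ≤ m := by
  unfold wt
  rcases Nat.eq_zero_or_pos (cd a b G v v') with h | h
  · rw [h]; simpa using hm
  · have hc : (0 : ℝ) < (cd a b G v v' : ℝ) := by exact_mod_cast h
    calc (cd a b G v v' : ℝ) * min 1 (m / (cd a b G v v' : ℝ)) ≤
        (cd a b G v v' : ℝ) * (m / (cd a b G v v' : ℝ)) := by gcongr; exact min_le_right _ _
      _ = m := by field_simp

lemma cd_mul_wt_ge (a b : α → Set α) (G : Finset α) {m : ℝ} {v v' : Set α}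
    (h : 0 < cd a b G v v') :
    m - m ^ 2 / 4 * (1 / (cd a b G v v' : ℝ)) ≤ (cd a b G v v' : ℝ) * wt a b G m v v' := by
  unfold wt
  have hc : (0 : ℝ) < (cd a b G v v' : ℝ) := by exact_mod_cast h
  set c := (cd a b G v v' : ℝ) with hcdef
  rcases le_total 1 (m / c) with h1 | h1
  · rw [min_eq_left h1, mul_one]
    rw [← sub_nonneg]
    have : c - (m - m ^ 2 / 4 * (1 / c)) = (c - m / 2) ^ 2 / c := by field_simp; ring
    rw [this]
    positivity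
  · rw [min_eq_right h1]
    have : c * (m / c) = m := by field_simp
    rw [this]
    have : 0 ≤ m ^ 2 / 4 * (1 / c) := by positivity
    linarith

open Classical in
noncomputable def ff (a b : α → Set α) (G1 : Finset α) (m : ℝ) (x y z t : α) : ℝ :=
  if b x = b y ∧ a y = a z ∧ b z = b t ∧ a t = a x then wt a b G1 m (a x) (a y) else 0

lemma ff_nonneg (a b : α → Set α) (G1 : Finset α) {m : ℝ} (hm : 0 ≤ m) (x y z t : α) :
    0 ≤ ff a b G1 m x y z t := by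
  unfold ff
  split_ifs
  · exact wt_nonneg a b G1 hm _ _
  · exact le_rfl

lemma ff_two (a b : α → Set α) (G1 : Finset α) (m : ℝ) (x y z t : α) :
    ff a b G1 m x y z t = ff a b G1 m y x t z := by
  unfold ff
  by_cases h : b x = b y ∧ a y = a z ∧ b z = b t ∧ a t = a x
  · rw [if_pos h, if_pos ⟨h.1.symm, h.2.2.2.symm, h.2.2.1.symm, h.2.1.symm⟩, wt_symm]
  · rw [if_neg h, if_neg]
    rintro ⟨h1, h2, h3, h4⟩
    exact h ⟨h1.symm, h4.symm, h3.symm, h2.symm⟩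

lemma ff_three (a b : α → Set α) (G1 : Finset α) (m : ℝ) (x y z t : α) :
    ff a b G1 m x y z t = ff a b G1 m z t x y := by
  unfold ff
  by_cases h : b x = b y ∧ a y = a z ∧ b z = b t ∧ a t = a x
  · rw [if_pos h, if_pos ⟨h.2.2.1, h.2.2.2, h.1, h.2.1⟩, wt_symm, h.2.1, h.2.2.2]
  · rw [if_neg h, if_neg]
    rintro ⟨h1, h2, h3, h4⟩
    exact h ⟨h3, h4, h1, h2⟩

lemma ff_four (a b : α → Set α) (G1 : Finset α) (m : ℝ) (x y z t : α) :
    ff a b G1 m x y z t = ff a b G1 m t z y x := by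
  rw [ff_two, ff_three]

/-- the total weight of closed walks. -/
noncomputable def QQ (a b : α → Set α) (G1 : Finset α) (m : ℝ) (G : Finset α) : ℝ :=
  ∑ x ∈ G, ∑ y ∈ G, ∑ z ∈ G, ∑ t ∈ G, ff a b G1 m x y z t

noncomputable def QQ1 (a b : α → Set α) (G1 : Finset α) (m : ℝ) (G : Finset α) (x : α) : ℝ :=
  ∑ y ∈ G, ∑ z ∈ G, ∑ t ∈ G, ff a b G1 m x y z t

lemma QQ_erase [DecidableEq α] (a b : α → Set α) (G1 : Finset α) {m : ℝ} (hm : 0 ≤ m)
    (G : Finset α) {x0 : α} (hx0 : x0 ∈ G) :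
    QQ a b G1 m G ≤ QQ a b G1 m (G.erase x0) + 4 * QQ1 a b G1 m G x0 := by
  have h := four_sum_erase (f := ff a b G1 m) (ff_nonneg a b G1 hm) G hx0
  have h2 : ∑ x ∈ G, ∑ z ∈ G, ∑ t ∈ G, ff a b G1 m x x0 z t = QQ1 a b G1 m G x0 := by
    unfold QQ1
    refine Finset.sum_congr rfl fun x _ => ?_
    rw [Finset.sum_comm]
    exact Finset.sum_congr rfl fun z _ => Finset.sum_congr rfl fun t _ => ff_two _ _ _ _ _ _ _ _
  have h3 : ∑ x ∈ G, ∑ y ∈ G, ∑ t ∈ G, ff a b G1 m x y x0 t = QQ1 a b G1 m G x0 := by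
    unfold QQ1
    have : ∑ x ∈ G, ∑ y ∈ G, ∑ t ∈ G, ff a b G1 m x y x0 t =
        ∑ x ∈ G, ∑ t ∈ G, ∑ y ∈ G, ff a b G1 m x y x0 t :=
      Finset.sum_congr rfl fun x _ => Finset.sum_comm
    rw [this, Finset.sum_comm]
    exact Finset.sum_congr rfl fun t _ => Finset.sum_congr rfl fun x _ =>
      Finset.sum_congr rfl fun y _ => ff_three _ _ _ _ _ _ _ _
  have h4 : ∑ x ∈ G, ∑ y ∈ G, ∑ z ∈ G, ff a b G1 m x y z x0 = QQ1 a b G1 m G x0 := by
    unfold QQ1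
    have e1 : ∑ x ∈ G, ∑ y ∈ G, ∑ z ∈ G, ff a b G1 m x y z x0 =
        ∑ x ∈ G, ∑ z ∈ G, ∑ y ∈ G, ff a b G1 m x y z x0 :=
      Finset.sum_congr rfl fun x _ => Finset.sum_comm
    rw [e1, Finset.sum_comm]
    refine Finset.sum_congr rfl fun z _ => ?_
    rw [Finset.sum_comm]
    exact Finset.sum_congr rfl fun y _ => Finset.sum_congr rfl fun x _ => ff_four _ _ _ _ _ _ _ _
  rw [h2, h3, h4] at h
  unfold QQ
  have h1 : ∑ y ∈ G, ∑ z ∈ G, ∑ t ∈ G, ff a b G1 m x0 y z t = QQ1 a b G1 m G x0 := rfl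
  rw [h1] at h
  linarith

/-- number of pairs of joints on a common line. -/
noncomputable def PP (b : α → Set α) (G : Finset α) : ℝ := ∑ x ∈ G, (deg b G (b x) : ℝ)

lemma deg_mono (b : α → Set α) {G G' : Finset α} (h : G' ⊆ G) (w : Set α) :
    deg b G' w ≤ deg b G w := by
  classical
  exact Finset.card_le_card (Finset.filter_subset_filter _ h)

lemma PP_erase [DecidableEq α] (b : α → Set α) (G : Finset α) {x0 : α} (hx0 : x0 ∈ G) :
    PP b (G.erase x0) + deg b G (b x0) ≤ PP b G := by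
  unfold PP
  rw [← Finset.add_sum_erase G (fun x => (deg b G (b x) : ℝ)) hx0, add_comm]
  gcongr with x hx
  exact deg_mono b (Finset.erase_subset _ _) _

end Pool.Agent.N353.Joints
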