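import Mathlib

/-!
# Joints of lines in simple matroids: definitions and basic facts on lines

(Definitions for problem `MP_66cbdd_co`.)
-/

namespace Pool.Agent.N353.Joints

open Set

variable {α : Type*}

/-- A matroid is simple: no loops and no parallel pairs. (For `e = f` the condition says that
`e` is not a loop.) -/
def IsSimple (M : Matroid α) : Prop := ∀ e ∈ M.E, ∀ f ∈ M.E, M.Indep {e, f}

/-- A line: a flat of rank two. -/
def IsLine (M : Matroid α) (l : Set α) : Prop := M.IsFlat l ∧ M.eRk l = 2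

/-- `x` is an `n`-dimensional joint of the set `S` of lines: there are `n` lines of `S` through `x`
whose union has rank at least `n + 1`. -/
def IsJoint (M : Matroid α) (n : ℕ) (S : Set (Set α)) (x : α) : Prop :=
  ∃ l : Fin n → Set α, (∀ i, l i ∈ S) ∧ (∀ i, x ∈ l i) ∧ ((n : ℕ∞) + 1 ≤ M.eRk (⋃ i, l i))

/-- The set of all numbers of `n`-dimensional joints of sets of `L` lines in finite simple
matroids. -/
def jointCounts (n L : ℕ) : Set ℕ :=
  {k | ∃ (α : Type) (M : Matroid α) (S : Finset (Set α)), M.Finite ∧ IsSimple M ∧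
    (∀ l ∈ S, IsLine M l) ∧ S.card = L ∧ {x | IsJoint M n (S : Set (Set α)) x}.ncard = k}

/-- `J n L`: the maximum number of `n`-dimensional joints of `L` lines in a simple matroid. -/
noncomputable def J (n L : ℕ) : ℕ := sSup (jointCounts n L)

/-- In a simple matroid a line through two points of a flat lies in the flat. -/
lemma line_sub {M : Matroid α} (hs : IsSimple M) {l F : Set α} (hl : IsLine M l)
    (hF : M.IsFlat F) {p q : α} (hp : p ∈ l) (hq : q ∈ l) (hpq : p ≠ q) (hpF : p ∈ F)
    (hqF : q ∈ F) : l ⊆ F := by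
  have hpE : p ∈ M.E := hl.1.subset_ground hp
  have hqE : q ∈ M.E := hl.1.subset_ground hq
  have hI : M.Indep {p, q} := hs p hpE q hqE
  have hsub : ({p, q} : Set α) ⊆ l := by
    rintro z (rfl | rfl)
    · exact hp
    · exact hq
  have hfin : M.IsRkFinite {p, q} := M.isRkFinite_of_finite (by simp)
  have hr : M.eRk l ≤ M.eRk {p, q} := by
    rw [hl.2, hI.eRk_eq_encard, Set.encard_pair hpq]
  have h := hfin.closure_eq_closure_of_subset_of_eRk_ge_eRk hsub hr
  have h2 : l = M.closure {p, q} := by rw [h, hl.1.closure]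
  rw [h2, ← hF.closure]
  apply M.closure_subset_closure
  rintro z (rfl | rfl)
  · exact hpF
  · exact hqF

lemma line_eq {M : Matroid α} (hs : IsSimple M) {l l' : Set α} (hl : IsLine M l)
    (hl' : IsLine M l') {p q : α} (hp : p ∈ l) (hq : q ∈ l) (hpq : p ≠ q) (hp' : p ∈ l')
    (hq' : q ∈ l') : l = l' :=
  Subset.antisymm (line_sub hs hl hl'.1 hp hq hpq hp' hq') (line_sub hs hl' hl.1 hp' hq' hpq hp hq)

lemma line_other {M : Matroid α} {l : Set α} (hl : IsLine M l) (x : α) :
    ∃ y ∈ l, y ≠ x := by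
  by_contra hcon
  push Not at hcon
  have hsub : l ⊆ {x} := fun y hy => hcon y hy
  have h1 : M.eRk l ≤ 1 := by
    calc M.eRk l ≤ M.eRk {x} := M.eRk_mono hsub
      _ ≤ ({x} : Set α).encard := M.eRk_le_encard _
      _ = 1 := Set.encard_singleton x
  rw [hl.2] at h1
  exact absurd h1 (by decide)

/-- adding a line that meets a flat in a point raises the rank by at most one. -/
lemma rank_add_line {M : Matroid α} (hs : IsSimple M) {l F : Set α} (hl : IsLine M l) {p : α}
    (hp : p ∈ l) (hpF : p ∈ F) (hFE : F ⊆ M.E) :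
    ∃ F' : Set α, M.IsFlat F' ∧ M.eRk F' ≤ M.eRk F + 1 ∧ F ⊆ F' ∧ l ⊆ F' := by
  obtain ⟨q, hq, hqp⟩ := line_other hl p
  have hqE : q ∈ M.E := hl.1.subset_ground hq
  have hsub : insert q F ⊆ M.E := Set.insert_subset hqE hFE
  have h1 : insert q F ⊆ M.closure (insert q F) := M.subset_closure _ hsub
  refine ⟨M.closure (insert q F), M.isFlat_closure _, ?_, ?_, ?_⟩
  · rw [M.eRk_closure_eq]
    exact M.eRk_insert_le_add_one q F
  · exact (Set.subset_insert q F).trans h1
  · exact line_sub hs hl (M.isFlat_closure _) hq hp hqp (h1 (Set.mem_insert q F))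
      (h1 (Set.mem_insert_of_mem q hpF))

/-- lines through a common point: the rank of the union. -/
lemma eRk_lines_le {M : Matroid α} (hs : IsSimple M) {n : ℕ} (l : Fin n → Set α)
    (hl : ∀ i, IsLine M (l i)) {x : α} (hx : ∀ i, x ∈ l i) (hxE : x ∈ M.E) (s : Finset (Fin n)) :
    ∃ F : Set α, M.IsFlat F ∧ M.eRk F ≤ (s.card : ℕ∞) + 1 ∧ x ∈ F ∧ ∀ i ∈ s, l i ⊆ F := by
  classical
  induction s using Finset.induction_on with
  | empty =>
      refine ⟨M.closure {x}, M.isFlat_closure _, ?_, M.mem_closure_self x hxE, by simp⟩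
      rw [M.eRk_closure_eq]
      calc M.eRk {x} ≤ ({x} : Set α).encard := M.eRk_le_encard _
        _ = 1 := Set.encard_singleton x
        _ ≤ _ := by simp
  | insert j s hj ih =>
      obtain ⟨F, hF, hr, hxF, hsub⟩ := ih
      obtain ⟨F', hF', hr', hFF', hl'⟩ := rank_add_line hs (hl j) (hx j) hxF hF.subset_ground
      refine ⟨F', hF', ?_, hFF' hxF, ?_⟩
      · rw [Finset.card_insert_of_notMem hj]
        push_cast
        exact hr'.trans (by gcongr)
      · intro i hi
        rcases Finset.mem_insert.1 hi with rfl | hi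
        · exact hl'
        · exact (hsub i hi).trans hFF'

/-- some line of a joint is not contained in a given flat of rank at most `n`. -/
lemma exists_not_sub {M : Matroid α} {n : ℕ} {l : Fin n → Set α}
    (h : (n : ℕ∞) + 1 ≤ M.eRk (⋃ i, l i)) {F : Set α} (hr : M.eRk F ≤ n) :
    ∃ j, ¬ l j ⊆ F := by
  by_contra hcon
  push Not at hcon
  have h1 : M.eRk (⋃ i, l i) ≤ n := (M.eRk_mono (Set.iUnion_subset hcon)).trans hr
  have h2 : (n : ℕ∞) + 1 ≤ n := h.trans h1
  have h3 : n + 1 ≤ n := by exact_mod_cast h2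
  omega

lemma lines_ne {M : Matroid α} (hs : IsSimple M) {n : ℕ} {l : Fin n → Set α}
    (hl : ∀ i, IsLine M (l i)) {x : α} (hx : ∀ i, x ∈ l i) (hxE : x ∈ M.E)
    (h : (n : ℕ∞) + 1 ≤ M.eRk (⋃ i, l i)) {i j : Fin n} (hij : i ≠ j) : l i ≠ l j := by
  classical
  intro heq
  obtain ⟨F, hF, hr, hxF, hsub⟩ := eRk_lines_le hs l hl hx hxE (Finset.univ.erase i)
  have hcard : (Finset.univ.erase i : Finset (Fin n)).card + 1 = n := by
    have := Finset.card_erase_add_one (Finset.mem_univ i)
    rw [this]; simp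
  have hr' : M.eRk F ≤ n := by
    refine hr.trans ?_
    exact_mod_cast hcard.le
  obtain ⟨k, hk⟩ := exists_not_sub h hr'
  apply hk
  by_cases hki : k = i
  · subst hki
    rw [heq]
    exact hsub j (Finset.mem_erase.2 ⟨hij.symm, Finset.mem_univ _⟩)
  · exact hsub k (Finset.mem_erase.2 ⟨hki, Finset.mem_univ _⟩)

end Pool.Agent.N353.Joints
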