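import Pool.Agent.N353.Joints.Clean

/-!
# Existence of a good subsystem
-/

namespace Pool.Agent.N353.Joints

open Set

variable {α : Type*}

open Classical in
/-- pairs of joints with the same `b`-line. -/
noncomputable def EE (b : α → Set α) (G : Finset α) : Finset (α × α) :=
  (G ×ˢ G).filter (fun p => b p.1 = b p.2)

lemma card_EE (b : α → Set α) (G : Finset α) : ((EE b G).card : ℝ) = PP b G := by
  classical
  unfold EE PP deg
  rw [Finset.card_filter, Finset.sum_product]
  push_cast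
  refine Finset.sum_congr rfl fun x _ => ?_
  rw [Finset.card_filter]
  push_cast
  refine Finset.sum_congr rfl fun y _ => ?_
  by_cases h : b x = b y
  · simp [h]
  · simp [h, Ne.symm h]

/-- the weight of closed walks in the full system. -/
lemma QQ_self (a b : α → Set α) (G1 : Finset α) (m : ℝ) :
    QQ a b G1 m G1 = ∑ p ∈ EE b G1, (cd a b G1 (a p.1) (a p.2) : ℝ) *
      wt a b G1 m (a p.1) (a p.2) := by
  classical
  unfold QQ EE
  rw [Finset.sum_filter, Finset.sum_product]
  refine Finset.sum_congr rfl fun x _ => Finset.sum_congr rfl fun y _ => ?_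
  unfold ff
  by_cases h : b x = b y
  · rw [if_pos h]
    have hcd : (cd a b G1 (a x) (a y) : ℝ) =
        ∑ z ∈ G1, ∑ t ∈ G1, if (a y = a z ∧ b z = b t ∧ a t = a x) then (1 : ℝ) else 0 := by
      rw [cd_symm]
      unfold cd
      rw [Finset.card_filter, Finset.sum_product]
      push_cast
      refine Finset.sum_congr rfl fun z _ => Finset.sum_congr rfl fun t _ => ?_
      by_cases h1 : a z = a y ∧ a t = a x ∧ b z = b t
      · rw [if_pos h1, if_pos ⟨h1.1.symm, h1.2.2, h1.2.1⟩]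
      · rw [if_neg h1, if_neg]
        rintro ⟨h2, h3, h4⟩
        exact h1 ⟨h2.symm, h4, h3⟩
    rw [hcd, Finset.sum_mul]
    refine Finset.sum_congr rfl fun z _ => ?_
    rw [Finset.sum_mul]
    refine Finset.sum_congr rfl fun t _ => ?_
    by_cases h1 : a y = a z ∧ b z = b t ∧ a t = a x
    · rw [if_pos ⟨h, h1⟩, if_pos h1, one_mul]
    · rw [if_neg (fun hh => h1 hh.2), if_neg h1, zero_mul]
  · rw [if_neg h]
    refine Finset.sum_eq_zero fun z _ => Finset.sum_eq_zero fun t _ => ?_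
    rw [if_neg (fun hh => h hh.1)]

open Classical in
lemma QQ_self_ge (a b : α → Set α) (G1 : Finset α) {m : ℝ} (L : ℕ)
    (hL : (G1.image a).card ≤ L) :
    m * PP b G1 - m ^ 2 * (L : ℝ) ^ 2 / 4 ≤ QQ a b G1 m G1 := by
  classical
  rw [QQ_self]
  have hpos : ∀ p ∈ EE b G1, 0 < cd a b G1 (a p.1) (a p.2) := by
    rintro ⟨x, y⟩ hp
    simp only [EE, Finset.mem_filter, Finset.mem_product] at hp
    apply Finset.card_pos.2
    refine ⟨(x, y), ?_⟩
    simp only [Finset.mem_filter, Finset.mem_product]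
    exact ⟨hp.1, trivial, trivial, hp.2⟩
  have h1 : ∑ p ∈ EE b G1, (m - m ^ 2 / 4 * (1 / (cd a b G1 (a p.1) (a p.2) : ℝ))) ≤
      ∑ p ∈ EE b G1, (cd a b G1 (a p.1) (a p.2) : ℝ) * wt a b G1 m (a p.1) (a p.2) :=
    Finset.sum_le_sum fun p hp => cd_mul_wt_ge a b G1 (hpos p hp)
  refine le_trans ?_ h1
  rw [Finset.sum_sub_distrib, Finset.sum_const, nsmul_eq_mul, card_EE, ← Finset.mul_sum]
  have h2 : ∑ p ∈ EE b G1, (1 / (cd a b G1 (a p.1) (a p.2) : ℝ)) ≤ (L : ℝ) ^ 2 := by
    set V := (G1.image a) ×ˢ (G1.image a) with hV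
    have hmaps : ∀ p ∈ EE b G1, (a p.1, a p.2) ∈ V := by
      rintro ⟨x, y⟩ hp
      simp only [EE, Finset.mem_filter, Finset.mem_product] at hp
      exact Finset.mem_product.2 ⟨Finset.mem_image_of_mem a hp.1.1, Finset.mem_image_of_mem a hp.1.2⟩
    rw [← Finset.sum_fiberwise_of_maps_to hmaps]
    have h3 : ∀ v ∈ V, ∑ p ∈ EE b G1 with (a p.1, a p.2) = v,
        (1 / (cd a b G1 (a p.1) (a p.2) : ℝ)) ≤ 1 := by
      rintro ⟨v, v'⟩ _
      have h4 : ∀ p ∈ (EE b G1).filter (fun p => (a p.1, a p.2) = (v, v')),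
          (1 / (cd a b G1 (a p.1) (a p.2) : ℝ)) = 1 / (cd a b G1 v v' : ℝ) := by
        intro p hp
        have := (Finset.mem_filter.1 hp).2
        simp only [Prod.mk.injEq] at this
        rw [this.1, this.2]
      rw [Finset.sum_congr rfl h4, Finset.sum_const, nsmul_eq_mul]
      have h5 : ((EE b G1).filter (fun p => (a p.1, a p.2) = (v, v'))).card = cd a b G1 v v' := by
        unfold EE cd
        rw [Finset.filter_filter]
        congr 1
        ext p
        simp only [Finset.mem_filter, Prod.mk.injEq]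
        tauto
      rw [h5, mul_one_div]
      exact div_self_le_one _
    calc _ ≤ ∑ v ∈ V, (1 : ℝ) := Finset.sum_le_sum h3
      _ = (V.card : ℝ) := by simp
      _ ≤ (L : ℝ) ^ 2 := by
        rw [hV, Finset.card_product]
        push_cast
        have : ((G1.image a).card : ℝ) ≤ L := by exact_mod_cast hL
        nlinarith [Nat.cast_nonneg (α := ℝ) (G1.image a).card]
  have h6 : m ^ 2 / 4 * ∑ p ∈ EE b G1, (1 / (cd a b G1 (a p.1) (a p.2) : ℝ)) ≤
      m ^ 2 / 4 * (L : ℝ) ^ 2 := by gcongr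
  nlinarith

open Classical in
/-- Cauchy-Schwarz for the degrees. -/
lemma PP_ge (b : α → Set α) (G : Finset α) (L : ℕ)
    (hL : (G.image b).card ≤ L) : (G.card : ℝ) ^ 2 ≤ L * PP b G := by
  classical
  have hmaps : ∀ x ∈ G, b x ∈ G.image b := fun x hx => Finset.mem_image_of_mem b hx
  have h1 : PP b G = ∑ w ∈ G.image b, (deg b G w : ℝ) ^ 2 := by
    unfold PP
    rw [← Finset.sum_fiberwise_of_maps_to hmaps]
    refine Finset.sum_congr rfl fun w _ => ?_
    have : ∀ x ∈ G.filter (fun x => b x = w), (deg b G (b x) : ℝ) = deg b G w := by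
      intro x hx
      rw [(Finset.mem_filter.1 hx).2]
    rw [Finset.sum_congr rfl this, Finset.sum_const, nsmul_eq_mul, sq]
    congr 2
  have h2 : (G.card : ℝ) = ∑ w ∈ G.image b, (deg b G w : ℝ) := by
    rw [Finset.card_eq_sum_card_fiberwise hmaps]
    push_cast
    refine Finset.sum_congr rfl fun w _ => ?_
    unfold deg
    congr!
  rw [h1, h2]
  refine (sq_sum_le_card_mul_sum_sq).trans ?_
  have h3 : ((G.image b).card : ℝ) ≤ L := by exact_mod_cast hL
  have h4 : 0 ≤ ∑ w ∈ G.image b, (deg b G w : ℝ) ^ 2 := Finset.sum_nonneg fun _ _ => by positivity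
  gcongr

/-- Four-cycles that stay in a flat are few. -/
lemma QQ1_le {M : Matroid α} (hs : IsSimple M) {a b : α → Set α} {G1 G : Finset α} (hG : G ⊆ G1)
    (hS : Sys M a b G1) {m : ℝ} (hm : 0 ≤ m) {F : Set α} (hF : M.IsFlat F) {x : α} (hx : x ∈ G)
    (hbx : b x ⊆ F) :
    QQ1 a b G1 m G x ≤ ((walks a b G F x).card : ℝ) +
      m * ((inF a b G F (b x)).card : ℝ) + deg b G (b x) := by
  classical
  have hSG := hS.mono hG
  unfold QQ1
  set U := (G ×ˢ G ×ˢ G).filter (fun p => b x = b p.1 ∧ a p.1 = a p.2.1 ∧ b p.2.1 = b p.2.2 ∧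
    a p.2.2 = a x) with hU
  have e1 : ∑ y ∈ G, ∑ z ∈ G, ∑ t ∈ G, ff a b G1 m x y z t =
      ∑ p ∈ U, wt a b G1 m (a x) (a p.1) := by
    rw [hU, Finset.sum_filter, Finset.sum_product]
    refine Finset.sum_congr rfl fun y _ => ?_
    rw [Finset.sum_product]
    rfl
  rw [e1]
  set U1 := U.filter (fun p => a p.1 ⊆ F) with hU1
  set U2 := U.filter (fun p => ¬ a p.1 ⊆ F) with hU2
  have e2 : ∑ p ∈ U, wt a b G1 m (a x) (a p.1) = ∑ p ∈ U1, wt a b G1 m (a x) (a p.1) +
      ∑ p ∈ U2, wt a b G1 m (a x) (a p.1) :=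
    (Finset.sum_filter_add_sum_filter_not U _ _).symm
  have e3 : ∑ p ∈ U2, wt a b G1 m (a x) (a p.1) ≤ ((walks a b G F x).card : ℝ) +
      deg b G (b x) := by
    have h1 : ∑ p ∈ U2, wt a b G1 m (a x) (a p.1) ≤ (U2.card : ℝ) := by
      calc _ ≤ ∑ p ∈ U2, (1 : ℝ) := Finset.sum_le_sum fun p _ => wt_le_one _ _ _ _ _ _
        _ = _ := by simp
    have h2 : U2 ⊆ walks a b G F x ∪ (U2.filter (fun p => b p.2.2 ⊆ F)) := by
      rintro ⟨y, z, t⟩ hp
      have hp' := hp
      simp only [hU2, hU, Finset.mem_filter, Finset.mem_product] at hp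
      rw [Finset.mem_union]
      by_cases hb : b t ⊆ F
      · right
        exact Finset.mem_filter.2 ⟨hp', hb⟩
      · left
        simp only [walks, Finset.mem_filter, Finset.mem_product]
        exact ⟨hp.1.1, hp.1.2.1.symm, hp.1.2.2.1.symm, hp.1.2.2.2.1.symm, hp.1.2.2.2.2, hp.2, hb⟩
    have h3 : (U2.filter (fun p => b p.2.2 ⊆ F)).card ≤ deg b G (b x) := by
      unfold deg
      apply Finset.card_le_card_of_injOn (fun p => p.1)
      · rintro ⟨y, z, t⟩ hp
        have hp := Finset.mem_coe.1 hp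
        simp only [hU2, hU, Finset.mem_filter, Finset.mem_product] at hp
        simp only [Finset.coe_filter, Set.mem_ofPred_eq]
        exact ⟨hp.1.1.1.1, hp.1.1.2.1.symm⟩
      · have key : ∀ p ∈ U2.filter (fun p => b p.2.2 ⊆ F), p.2.1 = p.1 ∧ p.2.2 = x := by
          rintro ⟨y, z, t⟩ hp
          simp only [hU2, hU, Finset.mem_filter, Finset.mem_product] at hp
          obtain ⟨⟨⟨⟨hy, hz, ht⟩, h1, h2, h3, h4⟩, h5⟩, h6⟩ := hp
          have hzy : z = y := by
            by_contra hne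
            apply h5
            have hzF : z ∈ F := h6 (h3 ▸ hSG.xb z hz)
            have hyF : y ∈ F := hbx (h1 ▸ hSG.xb y hy)
            exact line_sub hs (hSG.la y hy) hF (h2 ▸ hSG.xa z hz) (hSG.xa y hy) hne hzF hyF
          refine ⟨hzy, ?_⟩
          apply hSG.inj hs ht hx h4
          rw [← h3, hzy, ← h1]
        intro p hp q hq hpq
        have kp := key p (Finset.mem_coe.1 hp)
        have kq := key q (Finset.mem_coe.1 hq)
        have hpq' : p.1 = q.1 := hpq
        refine Prod.ext hpq' (Prod.ext ?_ ?_)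
        · rw [kp.1, kq.1, hpq']
        · rw [kp.2, kq.2]
    have h4 : U2.card ≤ (walks a b G F x).card + deg b G (b x) :=
      (Finset.card_le_card h2).trans ((Finset.card_union_le _ _).trans (by gcongr))
    have h5 : (U2.card : ℝ) ≤ ((walks a b G F x).card : ℝ) + deg b G (b x) := by
      exact_mod_cast h4
    exact h1.trans h5
  have e4 : ∑ p ∈ U1, wt a b G1 m (a x) (a p.1) ≤ m * ((inF a b G F (b x)).card : ℝ) := by
    have hmaps : ∀ p ∈ U1, p.1 ∈ inF a b G F (b x) := by
      rintro ⟨y, z, t⟩ hp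
      simp only [hU1, hU, Finset.mem_filter, Finset.mem_product] at hp
      simp only [inF, Finset.mem_filter]
      exact ⟨hp.1.1.1, hp.1.2.1.symm, hp.2⟩
    rw [← Finset.sum_fiberwise_of_maps_to hmaps]
    have h1 : ∀ y ∈ inF a b G F (b x), ∑ p ∈ U1 with p.1 = y, wt a b G1 m (a x) (a p.1) ≤ m := by
      intro y hy
      have h2 : ∀ p ∈ U1.filter (fun p => p.1 = y), wt a b G1 m (a x) (a p.1) =
          wt a b G1 m (a x) (a y) := by
        intro p hp
        rw [(Finset.mem_filter.1 hp).2]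
      rw [Finset.sum_congr rfl h2, Finset.sum_const, nsmul_eq_mul]
      have h3 : (U1.filter (fun p => p.1 = y)).card ≤ cd a b G1 (a x) (a y) := by
        unfold cd
        apply Finset.card_le_card_of_injOn (fun p => (p.2.2, p.2.1))
        · rintro ⟨y', z, t⟩ hp
          have hp := Finset.mem_coe.1 hp
          simp only [hU1, hU, Finset.mem_filter, Finset.mem_product] at hp
          obtain ⟨⟨⟨⟨hy, hz, ht⟩, k1, k2, k3, k4⟩, k5⟩, k6⟩ := hp
          subst k6
          simp only [Finset.coe_filter, Finset.mem_product, Set.mem_ofPred_eq]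
          exact ⟨⟨hG ht, hG hz⟩, k4, k2.symm, k3.symm⟩
        · intro p hp q hq hpq
          have hp2 := (Finset.mem_filter.1 (Finset.mem_coe.1 hp)).2
          have hq2 := (Finset.mem_filter.1 (Finset.mem_coe.1 hq)).2
          simp only [Prod.mk.injEq] at hpq
          exact Prod.ext (hp2.trans hq2.symm) (Prod.ext hpq.2 hpq.1)
      have h4 : ((U1.filter (fun p => p.1 = y)).card : ℝ) ≤ (cd a b G1 (a x) (a y) : ℝ) := by
        exact_mod_cast h3
      calc _ ≤ (cd a b G1 (a x) (a y) : ℝ) * wt a b G1 m (a x) (a y) := by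
            gcongr
            exact wt_nonneg a b G1 hm _ _
        _ ≤ m := cd_mul_wt_le a b G1 hm _ _
    calc _ ≤ ∑ y ∈ inF a b G F (b x), m := Finset.sum_le_sum h1
      _ = _ := by rw [Finset.sum_const, nsmul_eq_mul, mul_comm]
  rw [e2]
  linarith

open Classical in
/-- Existence of a good subsystem (one order of the classes). -/
lemma exists_good_aux {M : Matroid α} (hs : IsSimple M) {n : ℕ} {a b : α → Set α} {G1 : Finset α}
    (hS : Sys M a b G1) {L : ℕ}
    (hLa : (G1.image a).card ≤ L) (hLb : (G1.image b).card ≤ L) (hL : 0 < L)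
    (hP : PP a G1 ≤ PP b G1) {m d1 : ℝ} (hm : m = (G1.card : ℝ) ^ 2 / (L : ℝ) ^ 3)
    (hd1 : d1 = (G1.card : ℝ) / L) (hm64 : 64 ≤ m)
    (hsmall : ∀ F : Set α, M.IsFlat F → M.eRk F ≤ n → ∀ w : Set α,
      ((inF a b G1 F w).card : ℝ) ≤ d1 / 64) :
    ∃ G ⊆ G1, G.Nonempty ∧ Good M n a b G (m / 64) := by
  classical
  have hm0 : 0 < m := by linarith
  have hLr : (0 : ℝ) < L := by exact_mod_cast hL
  have hg : (0 : ℝ) < (G1.card : ℝ) := by
    rcases Nat.eq_zero_or_pos G1.card with h | h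
    · exfalso
      rw [h] at hm
      norm_num at hm
      linarith
    · exact_mod_cast h
  have hd1pos : 0 < d1 := by rw [hd1]; positivity
  have hPb : d1 * G1.card ≤ PP b G1 := by
    have h1 := PP_ge b G1 L hLb
    rw [hd1]
    rw [div_mul_eq_mul_div, div_le_iff₀ hLr]
    nlinarith
  have hPbpos : 0 < PP b G1 := lt_of_lt_of_le (by positivity) hPb
  have hQ : 3 / 4 * (m * PP b G1) ≤ QQ a b G1 m G1 := by
    have h1 := QQ_self_ge a b G1 (m := m) L hLa
    have h2 : m * (L : ℝ) ^ 2 ≤ PP b G1 := by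
      refine le_trans (le_of_eq ?_) hPb
      rw [hm, hd1]
      field_simp
    have h3 : m ^ 2 * (L : ℝ) ^ 2 / 4 ≤ m * PP b G1 / 4 := by
      have : m * (m * (L : ℝ) ^ 2) ≤ m * PP b G1 := by gcongr
      nlinarith
    linarith
  set Ψ : Finset α → ℝ := fun G => QQ a b G1 m G - m / 8 * (PP a G + PP b G + d1 * G.card) with hΨ
  obtain ⟨G, hGmem, hGmax⟩ := Finset.exists_max_image G1.powerset Ψ
    ⟨G1, Finset.mem_powerset_self _⟩
  have hGG1 : G ⊆ G1 := Finset.mem_powerset.1 hGmem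
  have hpos : 0 < Ψ G := by
    have h1 : 0 < Ψ G1 := by
      simp only [hΨ]
      nlinarith [mul_pos hm0 hPbpos, mul_le_mul_of_nonneg_left hP hm0.le,
        mul_le_mul_of_nonneg_left hPb hm0.le]
    exact lt_of_lt_of_le h1 (hGmax G1 (Finset.mem_powerset_self _))
  have hGne : G.Nonempty := by
    rw [Finset.nonempty_iff_ne_empty]
    rintro rfl
    simp [hΨ, QQ, PP] at hpos
  refine ⟨G, hGG1, hGne, ?_⟩
  intro F hF hr x hx hax hbx
  have h1 := QQ1_le hs hGG1 hS hm0.le hF hx hbx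
  have h2 : ((inF a b G F (b x)).card : ℝ) ≤ d1 / 64 := by
    refine le_trans ?_ (hsmall F hF hr (b x))
    have : (inF a b G F (b x)).card ≤ (inF a b G1 F (b x)).card :=
      Finset.card_le_card (Finset.filter_subset_filter _ hGG1)
    exact_mod_cast this
  have h3 := hGmax (G.erase x) (Finset.mem_powerset.2 ((Finset.erase_subset _ _).trans hGG1))
  simp only [hΨ] at h3
  have h4 := QQ_erase a b G1 hm0.le G hx
  have h5 := PP_erase a G hx
  have h6 := PP_erase b G hx
  have h7 : ((G.erase x).card : ℝ) + 1 = G.card := by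
    exact_mod_cast Finset.card_erase_add_one hx
  set da : ℝ := (deg a G (a x) : ℝ)
  set db : ℝ := (deg b G (b x) : ℝ)
  have hda : 0 ≤ da := Nat.cast_nonneg _
  have hdb : 0 ≤ db := Nat.cast_nonneg _
  -- 4 QQ1 ≥ m/8 (da + db + d1)
  have h8 : m / 8 * (da + db + d1) ≤ 4 * QQ1 a b G1 m G x := by
    have e1 : m / 8 * (PP a (G.erase x) + da) ≤ m / 8 * PP a G := by gcongr
    have e2 : m / 8 * (PP b (G.erase x) + db) ≤ m / 8 * PP b G := by gcongr
    have e3 : m / 8 * (d1 * (G.erase x).card) + m / 8 * d1 = m / 8 * (d1 * G.card) := by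
      rw [← h7]; ring
    linarith
  have h9 : m * ((inF a b G F (b x)).card : ℝ) ≤ m * (d1 / 64) := by gcongr
  have h10 : db ≤ m / 64 * db := by
    have : 1 ≤ m / 64 := by linarith
    nlinarith
  have h11 : 0 ≤ m / 64 * da := by positivity
  have h12 : 0 ≤ m / 64 * d1 := by positivity
  linarith

open Classical in
/-- Existence of a good subsystem. -/
lemma exists_good {M : Matroid α} (hs : IsSimple M) {n : ℕ} {a b : α → Set α} {G1 : Finset α}
    (hS : Sys M a b G1) {L : ℕ}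
    (hLa : (G1.image a).card ≤ L) (hLb : (G1.image b).card ≤ L) (hL : 0 < L)
    {m d1 : ℝ} (hm : m = (G1.card : ℝ) ^ 2 / (L : ℝ) ^ 3)
    (hd1 : d1 = (G1.card : ℝ) / L) (hm64 : 64 ≤ m)
    (hsmall : ∀ F : Set α, M.IsFlat F → M.eRk F ≤ n → ∀ w : Set α,
      ((inF a b G1 F w).card : ℝ) ≤ d1 / 64)
    (hsmall' : ∀ F : Set α, M.IsFlat F → M.eRk F ≤ n → ∀ w : Set α,
      ((inF b a G1 F w).card : ℝ) ≤ d1 / 64) :
    ∃ G ⊆ G1, G.Nonempty ∧ Good M n a b G (m / 64) := by
  rcases le_total (PP a G1) (PP b G1) with h | h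
  · exact exists_good_aux hs hS hLa hLb hL h hm hd1 hm64 hsmall
  · obtain ⟨G, h1, h2, h3⟩ := exists_good_aux hs hS.symm hLb hLa hL h hm hd1 hm64 hsmall'
    exact ⟨G, h1, h2, h3.symm⟩

end Pool.Agent.N353.Joints
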