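import Pool.Agent.N353.Joints.Def

/-!
# Growth of flats along ladders of four-cycles
-/

namespace Pool.Agent.N353.Joints

open Set

variable {α : Type*}

/-- A system of joints with two designated lines each. -/
structure Sys (M : Matroid α) (a b : α → Set α) (G : Finset α) : Prop where
  la : ∀ x ∈ G, IsLine M (a x)
  lb : ∀ x ∈ G, IsLine M (b x)
  xa : ∀ x ∈ G, x ∈ a x
  xb : ∀ x ∈ G, x ∈ b x
  ne : ∀ x ∈ G, a x ≠ b x

lemma Sys.symm {M : Matroid α} {a b : α → Set α} {G : Finset α} (h : Sys M a b G) :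
    Sys M b a G :=
  ⟨h.lb, h.la, h.xb, h.xa, fun x hx => (h.ne x hx).symm⟩

lemma Sys.mono {M : Matroid α} {a b : α → Set α} {G G' : Finset α} (h : Sys M a b G)
    (hG : G' ⊆ G) : Sys M a b G' :=
  ⟨fun x hx => h.la x (hG hx), fun x hx => h.lb x (hG hx), fun x hx => h.xa x (hG hx),
    fun x hx => h.xb x (hG hx), fun x hx => h.ne x (hG hx)⟩

lemma Sys.inj {M : Matroid α} (hs : IsSimple M) {a b : α → Set α} {G : Finset α}
    (h : Sys M a b G) {x y : α} (hx : x ∈ G) (hy : y ∈ G) (ha : a x = a y) (hb : b x = b y) :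
    x = y := by
  by_contra hne
  apply h.ne x hx
  exact line_eq hs (h.la x hx) (h.lb x hx) (h.xa x hx) (ha ▸ h.xa y hy) hne (h.xb x hx)
    (hb ▸ h.xb y hy)

open Classical in
/-- the four-cycles `x - y - z - t` at `x` leaving the flat `F`. -/
noncomputable def walks (a b : α → Set α) (G : Finset α) (F : Set α) (x : α) :
    Finset (α × α × α) :=
  (G ×ˢ G ×ˢ G).filter (fun p => b p.1 = b x ∧ a p.2.1 = a p.1 ∧ b p.2.2 = b p.2.1 ∧
    a p.2.2 = a x ∧ ¬ a p.1 ⊆ F ∧ ¬ b p.2.2 ⊆ F)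

open Classical in
noncomputable def deg (b : α → Set α) (G : Finset α) (w : Set α) : ℕ :=
  (G.filter (fun y => b y = w)).card

/-- every joint of `G` is in many four-cycles that leave a given flat of rank at most `n`. -/
def Good (M : Matroid α) (n : ℕ) (a b : α → Set α) (G : Finset α) (κ : ℝ) : Prop :=
  ∀ F : Set α, M.IsFlat F → M.eRk F ≤ n → ∀ x ∈ G, a x ⊆ F → b x ⊆ F →
    κ * ((deg a G (a x) : ℝ) + deg b G (b x)) ≤ ((walks a b G F x).card : ℝ)

lemma walks_card_symm (a b : α → Set α) (G : Finset α) (F : Set α) (x : α) :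
    (walks a b G F x).card = (walks b a G F x).card := by
  classical
  refine Finset.card_nbij' (fun p => (p.2.2, p.2.1, p.1)) (fun p => (p.2.2, p.2.1, p.1)) ?_ ?_ ?_ ?_
  · rintro ⟨y, z, t⟩ h
    simp only [walks, Finset.coe_filter, Finset.mem_product, Set.mem_ofPred_eq] at h ⊢
    obtain ⟨⟨hy, hz, ht⟩, h1, h2, h3, h4, h5, h6⟩ := h
    exact ⟨⟨ht, hz, hy⟩, h4, h3.symm, h2.symm, h1, h6, h5⟩
  · rintro ⟨y, z, t⟩ h
    simp only [walks, Finset.coe_filter, Finset.mem_product, Set.mem_ofPred_eq] at h ⊢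
    obtain ⟨⟨hy, hz, ht⟩, h1, h2, h3, h4, h5, h6⟩ := h
    exact ⟨⟨ht, hz, hy⟩, h4, h3.symm, h2.symm, h1, h6, h5⟩
  · rintro ⟨y, z, t⟩ _
    rfl
  · rintro ⟨y, z, t⟩ _
    rfl

lemma Good.symm {M : Matroid α} {n : ℕ} {a b : α → Set α} {G : Finset α} {κ : ℝ}
    (h : Good M n a b G κ) : Good M n b a G κ := by
  intro F hF hr x hx hb ha
  rw [← walks_card_symm, add_comm]
  exact h F hF hr x hx ha hb

open Classical in
noncomputable def inF (a b : α → Set α) (G : Finset α) (F w : Set α) : Finset α :=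
  G.filter (fun x => b x = w ∧ a x ⊆ F)

/-- The growth step. -/
lemma grow {M : Matroid α} (hs : IsSimple M) {n : ℕ} {a b : α → Set α} {G : Finset α} {κ : ℝ}
    (hκ : 0 < κ) (hS : Sys M a b G) (hg : Good M n a b G κ) {F w : Set α} (hF : M.IsFlat F)
    (hr : M.eRk F ≤ n) (hw : w ⊆ F) (hne : (inF a b G F w).Nonempty) :
    ∃ F' : Set α, M.IsFlat F' ∧ M.eRk F' ≤ M.eRk F + 1 ∧ ∃ w' : Set α, w' ⊆ F' ∧
      κ * ((inF a b G F w).card : ℝ) ≤ ((inF b a G F' w').card : ℝ) := by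
  classical
  set S := inF a b G F w with hSdef
  have hSG : ∀ x ∈ S, x ∈ G ∧ b x = w ∧ a x ⊆ F := by
    intro x hx
    simpa [hSdef, inF] using hx
  set N := G.filter (fun y => b y = w) with hN
  -- the set of all pairs (x, walk)
  set T : Finset (α × α × α × α) := S.sigma (fun x => walks a b G F x) |>.map
    ⟨fun p => (p.1, p.2), by rintro ⟨x, p⟩ ⟨y, q⟩ h; simpa using h⟩ with hT
  have hTcard : (T.card : ℝ) = ∑ x ∈ S, ((walks a b G F x).card : ℝ) := by
    rw [hT, Finset.card_map, Finset.card_sigma]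
    push_cast
    rfl
  have hTlow : κ * (S.card : ℝ) * N.card ≤ T.card := by
    rw [hTcard]
    have : ∀ x ∈ S, κ * (N.card : ℝ) ≤ ((walks a b G F x).card : ℝ) := by
      intro x hx
      obtain ⟨hxG, hbx, hax⟩ := hSG x hx
      have h1 := hg F hF hr x hxG hax (hbx ▸ hw)
      have h2 : deg b G (b x) = N.card := by rw [hbx]; rfl
      rw [h2] at h1
      have h3 : (0 : ℝ) ≤ κ * (deg a G (a x) : ℝ) := by positivity
      nlinarith
    calc κ * (S.card : ℝ) * N.card = ∑ x ∈ S, κ * (N.card : ℝ) := by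
          rw [Finset.sum_const, nsmul_eq_mul]; ring
      _ ≤ _ := Finset.sum_le_sum this
  have hTmem : ∀ p ∈ T, p.1 ∈ S ∧ p.2.1 ∈ G ∧ p.2.2.1 ∈ G ∧ p.2.2.2 ∈ G ∧ b p.2.1 = b p.1 ∧
      a p.2.2.1 = a p.2.1 ∧ b p.2.2.2 = b p.2.2.1 ∧ a p.2.2.2 = a p.1 ∧ ¬ a p.2.1 ⊆ F ∧
      ¬ b p.2.2.2 ⊆ F := by
    rintro ⟨x, y, z, t⟩ hp
    simp only [hT, Finset.mem_map, Finset.mem_sigma, Function.Embedding.coeFn_mk, walks,
      Finset.mem_filter, Finset.mem_product] at hp
    obtain ⟨⟨x', p'⟩, ⟨hx, ⟨h1, h2, h3⟩, h4, h5, h6, h7, h8, h9⟩, heq⟩ := hp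
    simp only [Prod.mk.injEq] at heq
    obtain ⟨rfl, heq⟩ := heq
    subst heq
    exact ⟨hx, h1, h2, h3, h4, h5, h6, h7, h8, h9⟩
  have hNne : N.Nonempty := by
    obtain ⟨x, hx⟩ := hne
    obtain ⟨hxG, hbx, hax⟩ := hSG x hx
    exact ⟨x, by simp [hN, hxG, hbx]⟩
  -- pigeonhole on y
  have hmaps : ∀ p ∈ T, p.2.1 ∈ N := by
    intro p hp
    obtain ⟨h1, h2, _, _, h5, _⟩ := hTmem p hp
    simp only [hN, Finset.mem_filter]
    exact ⟨h2, h5.trans (hSG _ h1).2.1⟩
  have hex : ∃ y ∈ N, κ * (S.card : ℝ) ≤ ((T.filter (fun p => p.2.1 = y)).card : ℝ) := by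
    by_contra hcon
    push Not at hcon
    have h1 : (T.card : ℝ) = ∑ y ∈ N, ((T.filter (fun p => p.2.1 = y)).card : ℝ) := by
      rw [Finset.card_eq_sum_card_fiberwise hmaps]
      push_cast
      rfl
    have h2 : (T.card : ℝ) < ∑ y ∈ N, κ * (S.card : ℝ) := by
      rw [h1]
      exact Finset.sum_lt_sum_of_nonempty hNne hcon
    rw [Finset.sum_const, nsmul_eq_mul] at h2
    nlinarith
  obtain ⟨y, hyN, hy⟩ := hex
  have hyG : y ∈ G ∧ b y = w := by simpa [hN] using hyN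
  have hSpos : 0 < (S.card : ℝ) := by exact_mod_cast Finset.card_pos.2 hne
  have hfibne : (T.filter (fun p => p.2.1 = y)).Nonempty := by
    rw [← Finset.card_pos]
    have : (0 : ℝ) < ((T.filter (fun p => p.2.1 = y)).card : ℝ) := lt_of_lt_of_le (by positivity) hy
    exact_mod_cast this
  have hayF : ¬ a y ⊆ F := by
    obtain ⟨p, hp⟩ := hfibne
    obtain ⟨hp1, hp2⟩ := Finset.mem_filter.1 hp
    have := (hTmem p hp1).2.2.2.2.2.2.2.2.1
    rwa [hp2] at this
  have hyF : y ∈ F := hw (hyG.2 ▸ hS.xb y hyG.1)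
  obtain ⟨F', hF', hr', hFF', hyF'⟩ := rank_add_line hs (hS.la y hyG.1) (hS.xa y hyG.1) hyF
    hF.subset_ground
  refine ⟨F', hF', hr', a y, hyF', hy.trans ?_⟩
  have hinj : (T.filter (fun p => p.2.1 = y)).card ≤ (inF b a G F' (a y)).card := by
    apply Finset.card_le_card_of_injOn (fun p => p.2.2.1)
    · intro p hp
      obtain ⟨hp1, hp2⟩ := Finset.mem_filter.1 (Finset.mem_coe.1 hp)
      obtain ⟨h1, h2, h3, h4, h5, h6, h7, h8, h9, h10⟩ := hTmem p hp1
      rw [hp2] at h6 h9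
      simp only [inF, Finset.coe_filter, Set.mem_ofPred_eq]
      refine ⟨h3, h6, ?_⟩
      -- t ∈ F, z ∈ a y
      have htF : p.2.2.2 ∈ F := (hSG _ h1).2.2 (h8 ▸ hS.xa _ h4)
      have hz : p.2.2.1 ∈ F' := hyF' (h6 ▸ hS.xa _ h3)
      have hzt : p.2.2.1 ≠ p.2.2.2 := by
        intro heq
        apply hayF
        rw [← h6, heq, h8]
        exact (hSG _ h1).2.2
      exact line_sub hs (hS.lb _ h3) hF' (hS.xb _ h3) (h7 ▸ hS.xb _ h4) hzt hz (hFF' htF)
    · intro p hp q hq hpq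
      obtain ⟨hp1, hp2⟩ := Finset.mem_filter.1 (Finset.mem_coe.1 hp)
      obtain ⟨hq1, hq2⟩ := Finset.mem_filter.1 (Finset.mem_coe.1 hq)
      obtain ⟨h1, h2, h3, h4, h5, h6, h7, h8, h9, h10⟩ := hTmem p hp1
      obtain ⟨k1, k2, k3, k4, k5, k6, k7, k8, k9, k10⟩ := hTmem q hq1
      have hz : p.2.2.1 = q.2.2.1 := hpq
      have ht : p.2.2.2 = q.2.2.2 := by
        by_contra hne'
        apply h10
        have e1 : p.2.2.2 ∈ F := (hSG _ h1).2.2 (h8 ▸ hS.xa _ h4)
        have e2 : q.2.2.2 ∈ F := (hSG _ k1).2.2 (k8 ▸ hS.xa _ k4)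
        have e3 : q.2.2.2 ∈ b p.2.2.2 := by
          rw [h7, hz, ← k7]
          exact hS.xb _ k4
        exact line_sub hs (hS.lb _ h4) hF (hS.xb _ h4) e3 hne' e1 e2
      have hx : p.1 = q.1 := by
        apply hS.inj hs (hSG _ h1).1 (hSG _ k1).1
        · rw [← h8, ht, k8]
        · rw [(hSG _ h1).2.1, (hSG _ k1).2.1]
      refine Prod.ext hx (Prod.ext (hp2.trans hq2.symm) (Prod.ext hz ht))
  exact_mod_cast hinj

/-- Iterating the growth step. -/
lemma grow_iter {M : Matroid α} (hs : IsSimple M) {n : ℕ} {a b : α → Set α} {G : Finset α} {κ : ℝ}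
    (hκ : 0 < κ) (hS : Sys M a b G) (hg : Good M n a b G κ) (hG : G.Nonempty) (j : ℕ)
    (hj : 3 + j ≤ n) :
    (∃ F : Set α, M.IsFlat F ∧ M.eRk F ≤ ((3 + j : ℕ) : ℕ∞) ∧ ∃ w : Set α, w ⊆ F ∧
      κ ^ j ≤ ((inF a b G F w).card : ℝ)) ∨
    (∃ F : Set α, M.IsFlat F ∧ M.eRk F ≤ ((3 + j : ℕ) : ℕ∞) ∧ ∃ w : Set α, w ⊆ F ∧
      κ ^ j ≤ ((inF b a G F w).card : ℝ)) := by
  classical
  induction j with
  | zero =>
      left
      obtain ⟨x, hx⟩ := hG
      have hxE : x ∈ M.E := (hS.la x hx).1.subset_ground (hS.xa x hx)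
      obtain ⟨F0, hF0, hr0, hxF0, h0⟩ := eRk_lines_le hs (fun _ : Fin 1 => a x)
        (fun _ => hS.la x hx) (fun _ => hS.xa x hx) hxE Finset.univ
      obtain ⟨F, hF, hr, hFF, hbF⟩ := rank_add_line hs (hS.lb x hx) (hS.xb x hx) hxF0
        hF0.subset_ground
      refine ⟨F, hF, ?_, b x, hbF, ?_⟩
      · refine hr.trans ?_
        have : M.eRk F0 ≤ 2 := by
          refine hr0.trans ?_
          simp only [Finset.card_univ, Fintype.card_fin]
          norm_num
        calc M.eRk F0 + 1 ≤ 2 + 1 := by gcongr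
          _ = ((3 + 0 : ℕ) : ℕ∞) := by norm_num
      · simp only [pow_zero]
        have : 0 < (inF a b G F (b x)).card := by
          apply Finset.card_pos.2
          refine ⟨x, ?_⟩
          simp only [inF, Finset.mem_filter]
          exact ⟨hx, trivial, (h0 0 (Finset.mem_univ _)).trans hFF⟩
        exact_mod_cast this
  | succ j ih =>
      have hstep : ∀ a b : α → Set α, Sys M a b G → Good M n a b G κ →
          (∃ F : Set α, M.IsFlat F ∧ M.eRk F ≤ ((3 + j : ℕ) : ℕ∞) ∧ ∃ w : Set α, w ⊆ F ∧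
            κ ^ j ≤ ((inF a b G F w).card : ℝ)) →
          (∃ F : Set α, M.IsFlat F ∧ M.eRk F ≤ ((3 + (j + 1) : ℕ) : ℕ∞) ∧ ∃ w : Set α, w ⊆ F ∧
            κ ^ (j + 1) ≤ ((inF b a G F w).card : ℝ)) := by
        intro a b hS hg ⟨F, hF, hr, w, hw, hc⟩
        have hne : (inF a b G F w).Nonempty := by
          rw [← Finset.card_pos]
          have : (0 : ℝ) < ((inF a b G F w).card : ℝ) := lt_of_lt_of_le (by positivity) hc
          exact_mod_cast this
        have hrn : M.eRk F ≤ n := hr.trans (by exact_mod_cast (by omega : 3 + j ≤ n))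
        obtain ⟨F', hF', hr', w', hw', hc'⟩ := grow hs hκ hS hg hF hrn hw hne
        refine ⟨F', hF', ?_, w', hw', ?_⟩
        · refine hr'.trans ?_
          calc M.eRk F + 1 ≤ ((3 + j : ℕ) : ℕ∞) + 1 := by gcongr
            _ = ((3 + (j + 1) : ℕ) : ℕ∞) := by push_cast; ring
        · refine le_trans ?_ hc'
          rw [pow_succ, mul_comm]
          exact mul_le_mul_of_nonneg_left hc hκ.le
      rcases ih (by omega) with h | h
      · right
        exact hstep a b hS hg h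
      · left
        exact hstep b a hS.symm hg.symm h

end Pool.Agent.N353.Joints
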