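import Pool.Agent.N353.Joints.Exist

/-!
# The upper bound for the number of joints
-/

namespace Pool.Agent.N353.Joints

open Set

variable {α : Type*}

open Classical in
/-- First cleaning: all degrees large. -/
lemma first_clean (a b : α → Set α) (X : Finset α) {L : ℕ} (hLa : (X.image a).card ≤ L)
    (hLb : (X.image b).card ≤ L) (hL : 0 < L) :
    ∃ G ⊆ X, (X.card : ℝ) / 2 ≤ G.card ∧ ∀ x ∈ G,
      (X.card : ℝ) / (4 * L) ≤ deg a G (a x) ∧ (X.card : ℝ) / (4 * L) ≤ deg b G (b x) := by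
  have hLr : (0 : ℝ) < L := by exact_mod_cast hL
  set d0 : ℝ := (X.card : ℝ) / (4 * L) with hd0
  have hd0n : 0 ≤ d0 := by positivity
  set φ : Finset α → ℝ := fun G => (G.card : ℝ) - d0 * ((G.image a).card + (G.image b).card) with hφ
  obtain ⟨G, hGmem, hGmax⟩ := Finset.exists_max_image X.powerset φ ⟨X, Finset.mem_powerset_self _⟩
  have hGX : G ⊆ X := Finset.mem_powerset.1 hGmem
  have step : ∀ c e : α → Set α, (φ = fun G => (G.card : ℝ) - d0 * ((G.image c).card +
      (G.image e).card)) → ∀ x ∈ G, d0 ≤ deg c G (c x) := by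
    intro c e hce x hx
    set G' := G.filter (fun y => ¬ c y = c x) with hG'
    have h1 := hGmax G' (Finset.mem_powerset.2 ((Finset.filter_subset _ _).trans hGX))
    rw [hce] at h1
    have h2 : ((G'.image c).card : ℝ) + 1 ≤ (G.image c).card := by
      have : (G'.image c).card + 1 ≤ (G.image c).card := by
        have hsub : G'.image c ⊆ (G.image c).erase (c x) := by
          intro v hv
          obtain ⟨y, hy, rfl⟩ := Finset.mem_image.1 hv
          obtain ⟨hy1, hy2⟩ := Finset.mem_filter.1 hy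
          exact Finset.mem_erase.2 ⟨hy2, Finset.mem_image_of_mem c hy1⟩
        have := Finset.card_le_card hsub
        have h3 := Finset.card_erase_add_one (Finset.mem_image_of_mem c hx)
        omega
      exact_mod_cast this
    have h3 : ((G'.image e).card : ℝ) ≤ (G.image e).card := by
      exact_mod_cast Finset.card_le_card (Finset.image_subset_image (Finset.filter_subset _ _))
    have h4 : (deg c G (c x) : ℝ) + G'.card = G.card := by
      have := Finset.card_filter_add_card_filter_not (s := G) (fun y => c y = c x)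
      unfold deg
      exact_mod_cast this
    have h5 : d0 * (((G'.image c).card : ℝ) + 1) ≤ d0 * (G.image c).card := by gcongr
    have h6 : d0 * ((G'.image e).card : ℝ) ≤ d0 * (G.image e).card := by gcongr
    simp only at h1
    linarith
  refine ⟨G, hGX, ?_, ?_⟩
  · have h1 := hGmax X (Finset.mem_powerset_self _)
    simp only [hφ] at h1
    have h2 : d0 * ((X.image a).card + (X.image b).card) ≤ (X.card : ℝ) / 2 := by
      have : ((X.image a).card : ℝ) + (X.image b).card ≤ 2 * L := by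
        have e1 : ((X.image a).card : ℝ) ≤ L := by exact_mod_cast hLa
        have e2 : ((X.image b).card : ℝ) ≤ L := by exact_mod_cast hLb
        linarith
      calc _ ≤ d0 * (2 * L) := by gcongr
        _ = _ := by rw [hd0]; field_simp; ring
    have h3 : 0 ≤ d0 * ((G.image a).card + (G.image b).card) := by positivity
    linarith
  · intro x hx
    refine ⟨step a b hφ x hx, step b a ?_ x hx⟩
    rw [hφ]
    funext G
    ring

open Classical in
/-- Few joints lie on lines of a given class inside a flat of rank at most `n`. -/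
lemma few_in_flat {M : Matroid α} (hs : IsSimple M) {n : ℕ} {S : Finset (Set α)}
    (hS : ∀ l ∈ S, IsLine M l) (X : Finset α) (l : α → Fin n → Set α)
    (hl : ∀ x ∈ X, ∀ i, l x i ∈ S) (hx : ∀ x ∈ X, ∀ i, x ∈ l x i)
    (hr : ∀ x ∈ X, (n : ℕ∞) + 1 ≤ M.eRk (⋃ i, l x i)) {F : Set α} (hF : M.IsFlat F)
    (hrF : M.eRk F ≤ n) (i : Fin n) :
    (X.filter (fun x => l x i ⊆ F)).card ≤ n * S.card := by
  have h1 : ∀ x ∈ X, ∃ j, ¬ l x j ⊆ F := fun x hxX => exists_not_sub (hr x hxX) hrF
  have : Nonempty (Fin n) := ⟨i⟩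
  choose! g hg using h1
  have h2 : (Finset.univ ×ˢ S : Finset (Fin n × Set α)).card = n * S.card := by
    rw [Finset.card_product]; simp
  rw [← h2]
  apply Finset.card_le_card_of_injOn (fun x => (g x, l x (g x)))
  · intro x hx'
    obtain ⟨hxX, _⟩ := Finset.mem_filter.1 (Finset.mem_coe.1 hx')
    exact Finset.mem_coe.2 (Finset.mem_product.2 ⟨Finset.mem_univ _, hl x hxX _⟩)
  · intro x hx' y hy' hxy
    obtain ⟨hxX, hxF⟩ := Finset.mem_filter.1 (Finset.mem_coe.1 hx')
    obtain ⟨hyX, hyF⟩ := Finset.mem_filter.1 (Finset.mem_coe.1 hy')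
    simp only [Prod.mk.injEq] at hxy
    by_contra hne
    apply hg x hxX
    exact line_sub hs (hS _ (hl x hxX _)) hF (hx x hxX _) (hxy.2 ▸ hx y hyX _) hne
      (hxF (hx x hxX i)) (hyF (hx y hyX i))

open Classical in
lemma inF_small {M : Matroid α} (hs : IsSimple M) {a b : α → Set α} {G : Finset α}
    (hS : Sys M a b G) {d0 : ℝ} (hd : ∀ x ∈ G, d0 ≤ deg a G (a x)) {F w : Set α} :
    ((inF a b G F w).card : ℝ) * d0 ≤ ((G.filter (fun x => a x ⊆ F)).card : ℝ) := by
  set I := inF a b G F w with hI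
  have hImem : ∀ y ∈ I, y ∈ G ∧ b y = w ∧ a y ⊆ F := by
    intro y hy
    simpa [hI, inF] using hy
  have hinj : Set.InjOn a I := by
    intro y hy z hz h
    exact hS.inj hs (hImem y hy).1 (hImem z hz).1 h ((hImem y hy).2.1.trans (hImem z hz).2.1.symm)
  set V := I.image a with hV
  set H := G.filter (fun x => a x ∈ V) with hH
  have h1 : H.card = ∑ v ∈ V, deg a G v := by
    have hmaps : ∀ x ∈ H, a x ∈ V := fun x hx => (Finset.mem_filter.1 hx).2
    rw [Finset.card_eq_sum_card_fiberwise hmaps]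
    refine Finset.sum_congr rfl fun v hv => ?_
    unfold deg
    congr 1
    ext x
    simp only [hH, Finset.mem_filter]
    constructor
    · rintro ⟨⟨h1, _⟩, h2⟩
      exact ⟨h1, h2⟩
    · rintro ⟨h1, h2⟩
      exact ⟨⟨h1, h2 ▸ hv⟩, h2⟩
  have h2 : H ⊆ G.filter (fun x => a x ⊆ F) := by
    intro x hx
    obtain ⟨hxG, hxV⟩ := Finset.mem_filter.1 hx
    obtain ⟨y, hy, hyx⟩ := Finset.mem_image.1 hxV
    exact Finset.mem_filter.2 ⟨hxG, hyx ▸ (hImem y hy).2.2⟩
  have h3 : (I.card : ℝ) * d0 ≤ ∑ v ∈ V, (deg a G v : ℝ) := by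
    rw [hV, Finset.sum_image hinj]
    calc (I.card : ℝ) * d0 = ∑ y ∈ I, d0 := by rw [Finset.sum_const, nsmul_eq_mul]
      _ ≤ _ := Finset.sum_le_sum fun y hy => hd y (hImem y hy).1
  calc (I.card : ℝ) * d0 ≤ ∑ v ∈ V, (deg a G v : ℝ) := h3
    _ = (H.card : ℝ) := by rw [h1]; push_cast; rfl
    _ ≤ _ := by exact_mod_cast Finset.card_le_card h2

/-- The main inequality. -/
theorem joints_main {M : Matroid α} (hs : IsSimple M) {n : ℕ} (hn : 4 ≤ n) {S : Finset (Set α)}
    (hS : ∀ l ∈ S, IsLine M l) (X : Finset α)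
    (hX : ∀ x ∈ X, IsJoint M n (S : Set (Set α)) x)
    (hbig : 512 * n * (S.card : ℝ) ^ 3 ≤ (X.card : ℝ) ^ 2) (hX0 : 0 < X.card) :
    ((X.card : ℝ) ^ 2 / (256 * (S.card : ℝ) ^ 3)) ^ (n - 3) * X.card ≤ 4 * n * (S.card : ℝ) ^ 2 := by
  classical
  have hX' : ∀ x ∈ X, ∃ l : Fin n → Set α, (∀ i, l i ∈ S) ∧ (∀ i, x ∈ l i) ∧
      ((n : ℕ∞) + 1 ≤ M.eRk (⋃ i, l i)) := by
    intro x hx
    obtain ⟨l, h1, h2, h3⟩ := hX x hx
    exact ⟨l, fun i => by simpa using h1 i, h2, h3⟩
  choose! l hl hxl hrl using hX'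
  set L := S.card with hLdef
  have hL : 0 < L := by
    obtain ⟨x, hx⟩ := Finset.card_pos.1 hX0
    exact Finset.card_pos.2 ⟨_, hl x hx ⟨0, by omega⟩⟩
  have hLr : (0 : ℝ) < L := by exact_mod_cast hL
  set i0 : Fin n := ⟨0, by omega⟩ with hi0
  set i1 : Fin n := ⟨1, by omega⟩ with hi1
  set a : α → Set α := fun x => l x i0 with ha
  set b : α → Set α := fun x => l x i1 with hb
  have hSys : Sys M a b X := by
    refine ⟨fun x hx => hS _ (hl x hx _), fun x hx => hS _ (hl x hx _), fun x hx => hxl x hx _,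
      fun x hx => hxl x hx _, fun x hx => ?_⟩
    have hxE : x ∈ M.E := (hS _ (hl x hx i0)).1.subset_ground (hxl x hx _)
    apply lines_ne hs (fun i => hS _ (hl x hx i)) (hxl x hx) hxE (hrl x hx)
    simp [hi0, hi1]
  have hLa : (X.image a).card ≤ L := by
    apply Finset.card_le_card
    intro v hv
    obtain ⟨x, hx, rfl⟩ := Finset.mem_image.1 hv
    exact hl x hx _
  have hLb : (X.image b).card ≤ L := by
    apply Finset.card_le_card
    intro v hv
    obtain ⟨x, hx, rfl⟩ := Finset.mem_image.1 hv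
    exact hl x hx _
  obtain ⟨G1, hG1X, hG1c, hG1d⟩ := first_clean a b X hLa hLb hL
  have hSys1 := hSys.mono hG1X
  have hLa1 : (G1.image a).card ≤ L :=
    (Finset.card_le_card (Finset.image_subset_image hG1X)).trans hLa
  have hLb1 : (G1.image b).card ≤ L :=
    (Finset.card_le_card (Finset.image_subset_image hG1X)).trans hLb
  set J : ℝ := (X.card : ℝ) with hJ
  have hJpos : 0 < J := by rw [hJ]; exact_mod_cast hX0
  set m : ℝ := (G1.card : ℝ) ^ 2 / (L : ℝ) ^ 3 with hm
  set d1 : ℝ := (G1.card : ℝ) / L with hd1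
  have hnr : (4 : ℝ) ≤ n := by exact_mod_cast hn
  -- the lower bound for m
  have hmJ : J ^ 2 / (4 * (L : ℝ) ^ 3) ≤ m := by
    rw [hm, div_le_div_iff₀ (by positivity) (by positivity)]
    have : J ^ 2 ≤ 4 * (G1.card : ℝ) ^ 2 := by nlinarith
    nlinarith [pow_pos hLr 3]
  have hm64 : 64 ≤ m := by
    refine le_trans ?_ hmJ
    rw [le_div_iff₀ (by positivity)]
    have h2 : (4 : ℝ) * (L : ℝ) ^ 3 ≤ n * (L : ℝ) ^ 3 := by gcongr
    nlinarith [pow_pos hLr 3]
  -- flats contain few lines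
  have hsm : ∀ c e : α → Set α, Sys M c e G1 → (∀ x ∈ G1, J / (4 * L) ≤ deg c G1 (c x)) →
      (∀ F : Set α, M.IsFlat F → M.eRk F ≤ n → (X.filter (fun x => c x ⊆ F)).card ≤ n * L) →
      ∀ F : Set α, M.IsFlat F → M.eRk F ≤ n → ∀ w : Set α,
        ((inF c e G1 F w).card : ℝ) * J ≤ 4 * n * (L : ℝ) ^ 2 := by
    intro c e hce hd hI F hF hr w
    have h1 := inF_small hs hce hd (F := F) (w := w)
    have h2 : ((G1.filter (fun x => c x ⊆ F)).card : ℝ) ≤ n * L := by
      have : (G1.filter (fun x => c x ⊆ F)).card ≤ n * L :=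
        (Finset.card_le_card (Finset.filter_subset_filter _ hG1X)).trans (hI F hF hr)
      exact_mod_cast this
    have h3 := h1.trans h2
    rw [← mul_div_assoc, div_le_iff₀ (by positivity)] at h3
    nlinarith
  have hsa := hsm a b hSys1 (fun x hx => (hG1d x hx).1)
    (fun F hF hr => few_in_flat hs hS X l hl hxl hrl hF hr i0)
  have hsb := hsm b a hSys1.symm (fun x hx => (hG1d x hx).2)
    (fun F hF hr => few_in_flat hs hS X l hl hxl hrl hF hr i1)
  have hconv : ∀ s : ℝ, 0 ≤ s → s * J ≤ 4 * n * (L : ℝ) ^ 2 → s ≤ d1 / 64 := by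
    intro s hs0 h
    rw [le_div_iff₀ (by norm_num), hd1, le_div_iff₀ hLr]
    -- s * 64 * L ≤ G1.card
    have h1 : s * J * (128 * L) ≤ J * J := by
      calc s * J * (128 * L) ≤ 4 * n * (L : ℝ) ^ 2 * (128 * L) := by gcongr
        _ = 512 * n * (L : ℝ) ^ 3 := by ring
        _ ≤ J ^ 2 := hbig
        _ = J * J := sq J
    have h2 : s * (128 * L) ≤ J := by
      have : J * (s * (128 * L)) ≤ J * J := by linarith
      exact le_of_mul_le_mul_left this hJpos
    linarith
  obtain ⟨G, hGG1, hGne, hgood⟩ := exists_good hs hSys1 hLa1 hLb1 hL hm hd1 hm64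
    (n := n)
    (fun F hF hr w => hconv _ (Nat.cast_nonneg _) (hsa F hF hr w))
    (fun F hF hr w => hconv _ (Nat.cast_nonneg _) (hsb F hF hr w))
  have hSysG := hSys1.mono hGG1
  have hκ : (0 : ℝ) < m / 64 := by positivity
  have hiter := grow_iter hs hκ hSysG hgood hGne (n - 3) (by omega)
  have hpow : (J ^ 2 / (256 * (L : ℝ) ^ 3)) ^ (n - 3) ≤ (m / 64) ^ (n - 3) := by
    have : J ^ 2 / (256 * (L : ℝ) ^ 3) ≤ m / 64 := by
      calc J ^ 2 / (256 * (L : ℝ) ^ 3) = J ^ 2 / (4 * (L : ℝ) ^ 3) / 64 := by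
            rw [div_div]; ring_nf
        _ ≤ m / 64 := by gcongr
    gcongr
  have hmono : ∀ c e : α → Set α, ∀ F w : Set α,
      ((inF c e G F w).card : ℝ) ≤ ((inF c e G1 F w).card : ℝ) := by
    intro c e F w
    have : (inF c e G F w).card ≤ (inF c e G1 F w).card :=
      Finset.card_le_card (Finset.filter_subset_filter _ hGG1)
    exact_mod_cast this
  rcases hiter with ⟨F, hF, hr, w, _, hc⟩ | ⟨F, hF, hr, w, _, hc⟩
  · have hr' : M.eRk F ≤ n := by
      refine hr.trans ?_
      exact_mod_cast (by omega : 3 + (n - 3) ≤ n)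
    calc _ ≤ ((inF a b G1 F w).card : ℝ) * J := by
          gcongr
          exact (hpow.trans hc).trans (hmono _ _ _ _)
      _ ≤ _ := hsa F hF hr' w
  · have hr' : M.eRk F ≤ n := by
      refine hr.trans ?_
      exact_mod_cast (by omega : 3 + (n - 3) ≤ n)
    calc _ ≤ ((inF b a G1 F w).card : ℝ) * J := by
          gcongr
          exact (hpow.trans hc).trans (hmono _ _ _ _)
      _ ≤ _ := hsb F hF hr' w

/-- The upper bound, for a configuration. -/
theorem joints_upper {M : Matroid α} (hs : IsSimple M) {n : ℕ} (hn : 4 ≤ n) {S : Finset (Set α)}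
    (hS : ∀ l ∈ S, IsLine M l) (X : Finset α)
    (hX : ∀ x ∈ X, IsJoint M n (S : Set (Set α)) x) :
    (X.card : ℝ) ≤ (4 * n * 256 ^ n) * (S.card : ℝ) ^ ((3 : ℝ) / 2 + 1 / (4 * n - 10)) := by
  have hnr : (4 : ℝ) ≤ n := by exact_mod_cast hn
  rcases Nat.eq_zero_or_pos X.card with h0 | hX0
  · rw [h0]
    push_cast
    positivity
  have hL : 1 ≤ S.card := by
    obtain ⟨x, hx⟩ := Finset.card_pos.1 hX0
    obtain ⟨l, h1, _, _⟩ := hX x hx
    exact Finset.card_pos.2 ⟨_, by simpa using h1 ⟨0, by omega⟩⟩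
  have hLr : (1 : ℝ) ≤ S.card := by exact_mod_cast hL
  set L : ℝ := (S.card : ℝ) with hLdef
  set J : ℝ := (X.card : ℝ) with hJdef
  have hJpos : 0 < J := by rw [hJdef]; exact_mod_cast hX0
  have hLpos : 0 < L := by linarith
  have h256 : (1 : ℝ) ≤ 256 ^ n := one_le_pow₀ (by norm_num)
  have h256' : (256 : ℝ) ≤ 256 ^ n := le_self_pow₀ (by norm_num) (by omega)
  rcases lt_or_ge (J ^ 2) (512 * n * L ^ 3) with hlt | hge
  · have h1 : J ^ 2 ≤ (4 * n * 256 ^ n * L ^ ((3 : ℝ) / 2)) ^ 2 := by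
      have e1 : (L ^ ((3 : ℝ) / 2)) ^ 2 = L ^ 3 := by
        rw [← Real.rpow_natCast, ← Real.rpow_mul hLpos.le]
        norm_num
      rw [mul_pow, e1]
      refine hlt.le.trans ?_
      have e2 : (512 : ℝ) * n ≤ (4 * n * 256 ^ n) ^ 2 := by
        have e3 : 1024 * (n : ℝ) ≤ 4 * n * 256 ^ n := by nlinarith
        nlinarith
      gcongr
    have h2 : J ≤ 4 * n * 256 ^ n * L ^ ((3 : ℝ) / 2) := by
      apply le_of_sq_le_sq h1
      positivity
    refine h2.trans ?_
    gcongr
    · have : (0 : ℝ) ≤ 1 / (4 * n - 10) := by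
        apply div_nonneg zero_le_one
        linarith
      linarith
  · have h := joints_main hs hn hS X hX hge hX0
    rw [← hLdef, ← hJdef] at h
    -- (J^2/(256 L^3))^(n-3) * J ≤ 4 n L^2
    have h1 : J ^ (2 * n - 5) ≤ 4 * n * 256 ^ (n - 3) * L ^ (3 * n - 7) := by
      have e1 : (J ^ 2 / (256 * L ^ 3)) ^ (n - 3) * J = J ^ (2 * n - 5) / (256 ^ (n - 3) *
          L ^ (3 * (n - 3))) := by
        rw [div_pow, mul_pow, ← pow_mul, ← pow_mul, div_mul_eq_mul_div, ← pow_succ]
        congr 2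
        omega
      rw [e1, div_le_iff₀ (by positivity)] at h
      refine h.trans (le_of_eq ?_)
      have e2 : 3 * n - 7 = 2 + 3 * (n - 3) := by omega
      rw [e2, pow_add]
      ring
    set p : ℝ := (3 : ℝ) / 2 + 1 / (4 * n - 10) with hp
    have h5 : (0 : ℝ) < 4 * n - 10 := by linarith
    have hpk : p * ((2 * n - 5 : ℕ) : ℝ) = ((3 * n - 7 : ℕ) : ℝ) := by
      have e1 : ((2 * n - 5 : ℕ) : ℝ) = 2 * n - 5 := by
        rw [Nat.cast_sub (by omega)]; push_cast; ring
      have e2 : ((3 * n - 7 : ℕ) : ℝ) = 3 * n - 7 := by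
        rw [Nat.cast_sub (by omega)]; push_cast; ring
      rw [e1, e2, hp]
      field_simp
      ring
    have h2 : J ^ (2 * n - 5) ≤ (4 * n * 256 ^ n * L ^ p) ^ (2 * n - 5) := by
      have e1 : (L ^ p) ^ (2 * n - 5) = L ^ (3 * n - 7) := by
        rw [← Real.rpow_natCast, ← Real.rpow_mul hLpos.le, hpk, Real.rpow_natCast]
      rw [mul_pow, e1]
      refine h1.trans ?_
      have e2 : (4 : ℝ) * n * 256 ^ (n - 3) ≤ (4 * n * 256 ^ n) ^ (2 * n - 5) := by
        calc (4 : ℝ) * n * 256 ^ (n - 3) ≤ 4 * n * 256 ^ n := by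
              gcongr
              · norm_num
              · omega
          _ ≤ (4 * n * 256 ^ n) ^ (2 * n - 5) := by
              apply le_self_pow₀
              · nlinarith
              · omega
      gcongr
    exact le_of_pow_le_pow_left₀ (by omega) (by positivity) h2

end Pool.Agent.N353.Joints
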